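import Mathlib

/-!
# Unbounded solutions of `x_{n+1} = (α + x_n) / x_{n-2}`

For every `α > 0` there are positive initial values whose solution is unbounded.

The logarithms `X_n` satisfy `X_{n+1} = max (0, X_n) - X_{n-2}` up to a bounded error. Starting from
`(X_{n-2}, X_{n-1}, X_n) = (-a, -b, c)` the limit system `X_{n+1} = max (0, X_n) - X_{n-2}` returns after
seven or eight steps to a triple of the same form, with `(a, b, c)` replaced by `(a+b, b-c, a+2c)` if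
`b ≥ c` and by `(a+b+c, a+b, c-b)` if `b < c`. Both maps preserve the positive octant and multiply
`a + b + c` by at least `3/2`, which is stable under bounded errors if `a + b + c` is large.
-/

set_option autoImplicit false

namespace Pool.Agent.Results.MP_f66a6a_an.UnboundedSolutions

/-- `x` is a positive solution of `x_{n+1} = (α + x_n) / x_{n-2}`; the term with index `m ≥ -2` of the
problem is `x (m + 2)` here. -/
def IsPositiveSolution (α : ℝ) (x : ℕ → ℝ) : Prop :=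
  (∀ m, 0 < x m) ∧ ∀ n : ℕ, x (n + 3) = (α + x (n + 2)) / x n

/-- the return map, with errors -/
theorem step (L : ℝ) (hL : 0 ≤ L) (X : ℕ → ℝ)
    (h : ∀ n, |X (n + 3) - (max 0 (X (n + 2)) - X n)| ≤ L) (n : ℕ)
    (ha : 40 * L ≤ -X n) (hb : -(6 * L) ≤ -X (n + 1)) (hc : -(6 * L) ≤ X (n + 2))
    (hS : 100 * L ≤ -X n - X (n + 1) + X (n + 2)) :
    ∃ m : ℕ, 40 * L ≤ -X m ∧ -(6 * L) ≤ -X (m + 1) ∧ -(6 * L) ≤ X (m + 2) ∧
      3 / 2 * (-X n - X (n + 1) + X (n + 2)) - 40 * L ≤ -X m - X (m + 1) + X (m + 2) := by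
  obtain ⟨a, hadef⟩ : ∃ a, a = -X n := ⟨_, rfl⟩
  obtain ⟨b, hbdef⟩ : ∃ b, b = -X (n + 1) := ⟨_, rfl⟩
  obtain ⟨c, hcdef⟩ : ∃ c, c = X (n + 2) := ⟨_, rfl⟩
  have e3 := abs_le.1 (h n)
  have e4 := abs_le.1 (h (n + 1))
  have e5 := abs_le.1 (h (n + 2))
  have e6 := abs_le.1 (h (n + 3))
  have e7 := abs_le.1 (h (n + 4))
  have e8 := abs_le.1 (h (n + 5))
  have e9 := abs_le.1 (h (n + 6))
  have e10 := abs_le.1 (h (n + 7))
  simp only [add_assoc, Nat.reduceAdd] at e3 e4 e5 e6 e7 e8 e9 e10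
  have m2 : X (n + 2) ≤ max 0 (X (n + 2)) := le_max_right _ _
  have m2' : max 0 (X (n + 2)) ≤ X (n + 2) + 6 * L := max_le (by linarith) (by linarith)
  have p3 : 0 ≤ X (n + 3) := by linarith [e3.1, e3.2]
  rw [max_eq_right p3] at e4
  have p4 : 0 ≤ X (n + 4) := by linarith [e3.1, e3.2, e4.1, e4.2]
  rw [max_eq_right p4] at e5
  have p5 : 0 ≤ X (n + 5) := by linarith [e3.1, e3.2, e4.1, e4.2, e5.1, e5.2]
  rw [max_eq_right p5] at e6
  by_cases hbc : c ≤ b
  · -- case 1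
    have m6 : X (n + 6) ≤ max 0 (X (n + 6)) := le_max_right _ _
    have m6' : max 0 (X (n + 6)) ≤ X (n + 6) + 3 * L :=
      max_le (by linarith [e3.1, e3.2, e4.1, e4.2, e5.1, e5.2, e6.1, e6.2])
        (by linarith)
    have p7 : X (n + 7) ≤ 0 := by
      linarith [e3.1, e3.2, e4.1, e4.2, e5.1, e5.2, e6.1, e6.2, e7.1, e7.2]
    rw [max_eq_left p7] at e8
    have p8 : X (n + 8) ≤ 0 := by
      linarith [e3.1, e3.2, e4.1, e4.2, e5.1, e5.2, e8.1, e8.2]
    rw [max_eq_left p8] at e9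
    have m9 : 0 ≤ max 0 (X (n + 9)) := le_max_left _ _
    refine ⟨n + 8, ?_, ?_, ?_, ?_⟩
    · linarith [e3.1, e3.2, e4.1, e4.2, e5.1, e5.2, e8.1, e8.2]
    · simp only [add_assoc, Nat.reduceAdd]
      linarith [e3.1, e3.2, e4.1, e4.2, e5.1, e5.2, e6.1, e6.2, e9.1, e9.2]
    · simp only [add_assoc, Nat.reduceAdd]
      linarith [e3.1, e3.2, e4.1, e4.2, e5.1, e5.2, e6.1, e6.2, e7.1, e7.2, e10.1, e10.2]
    · simp only [add_assoc, Nat.reduceAdd]
      linarith [e3.1, e3.2, e4.1, e4.2, e5.1, e5.2, e6.1, e6.2, e7.1, e7.2, e8.1, e8.2, e9.1, e9.2, e10.1, e10.2]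
  · -- case 2
    push Not at hbc
    have m6 : 0 ≤ max 0 (X (n + 6)) := le_max_left _ _
    have m6' : max 0 (X (n + 6)) ≤ 3 * L :=
      max_le (by linarith) (by linarith [e3.1, e3.2, e4.1, e4.2, e5.1, e5.2, e6.1, e6.2])
    have p7 : X (n + 7) ≤ 0 := by
      linarith [e3.1, e3.2, e4.1, e4.2, e5.1, e5.2, e6.1, e6.2, e7.1, e7.2]
    rw [max_eq_left p7] at e8
    have p8 : X (n + 8) ≤ 0 := by
      linarith [e3.1, e3.2, e4.1, e4.2, e5.1, e5.2, e8.1, e8.2]
    rw [max_eq_left p8] at e9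
    refine ⟨n + 7, ?_, ?_, ?_, ?_⟩
    · linarith [e3.1, e3.2, e4.1, e4.2, e5.1, e5.2, e7.1, e7.2]
    · simp only [add_assoc, Nat.reduceAdd]
      linarith [e3.1, e3.2, e4.1, e4.2, e5.1, e5.2, e6.1, e6.2, e8.1, e8.2]
    · simp only [add_assoc, Nat.reduceAdd]
      linarith [e3.1, e3.2, e4.1, e4.2, e5.1, e5.2, e6.1, e6.2, e7.1, e7.2, e9.1, e9.2]
    · simp only [add_assoc, Nat.reduceAdd]
      linarith [e3.1, e3.2, e4.1, e4.2, e5.1, e5.2, e6.1, e6.2, e7.1, e7.2, e8.1, e8.2, e9.1, e9.2]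

/-- iteration of the return map -/
theorem iter (L : ℝ) (hL : 0 < L) (X : ℕ → ℝ)
    (h : ∀ n, |X (n + 3) - (max 0 (X (n + 2)) - X n)| ≤ L)
    (ha : 40 * L ≤ -X 0) (hb : -(6 * L) ≤ -X 1) (hc : -(6 * L) ≤ X 2)
    (hS : 100 * L ≤ -X 0 - X 1 + X 2) (k : ℕ) :
    ∃ m : ℕ, 40 * L ≤ -X m ∧ -(6 * L) ≤ -X (m + 1) ∧ -(6 * L) ≤ X (m + 2) ∧
      (80 + 20 * (3 / 2 : ℝ) ^ k) * L ≤ -X m - X (m + 1) + X (m + 2) := by
  induction k with
  | zero => exact ⟨0, ha, hb, hc, by simp only [zero_add]; linarith⟩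
  | succ k ih =>
    obtain ⟨m, h1, h2, h3, h4⟩ := ih
    have hp : (1 : ℝ) ≤ (3 / 2 : ℝ) ^ k := one_le_pow₀ (by norm_num)
    obtain ⟨m', h1', h2', h3', h4'⟩ := step L hL.le X h m h1 h2 h3 (by nlinarith)
    refine ⟨m', h1', h2', h3', ?_⟩
    rw [pow_succ]
    nlinarith

/-- `log (α + e ^ t)` is `max (0, t)` up to a bounded error -/
theorem log_add (α : ℝ) (hα : 0 < α) (t : ℝ) (L : ℝ) (hL1 : Real.log (1 + α) ≤ L) (hL2 : -Real.log α ≤ L)
    (hL : 0 ≤ L) : |Real.log (α + Real.exp t) - max 0 t| ≤ L := by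
  have hpos : 0 < α + Real.exp t := by positivity
  rw [abs_le]
  constructor
  · have h1 : Real.log α ≤ Real.log (α + Real.exp t) :=
      Real.log_le_log hα (by linarith [Real.exp_pos t])
    have h2 : t ≤ Real.log (α + Real.exp t) := by
      rw [Real.le_log_iff_exp_le hpos]; linarith
    rcases le_total 0 t with h | h
    · rw [max_eq_right h]; linarith
    · rw [max_eq_left h]; linarith
  · have h3 : α + Real.exp t ≤ (1 + α) * Real.exp (max 0 t) := by
      have h4 : Real.exp t ≤ Real.exp (max 0 t) := Real.exp_le_exp.2 (le_max_right _ _)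
      have h5 : 1 ≤ Real.exp (max 0 t) := Real.one_le_exp (le_max_left _ _)
      nlinarith
    have h6 := Real.log_le_log hpos h3
    rw [Real.log_mul (by positivity) (Real.exp_pos _).ne', Real.log_exp] at h6
    linarith

/-- **Unbounded solutions.** For every `α > 0` the equation `x_{n+1} = (α + x_n) / x_{n-2}` has a positive
solution which is unbounded. -/
theorem result : ∀ α : ℝ, 0 < α → ∃ x : ℕ → ℝ, IsPositiveSolution α x ∧ ∀ B : ℝ, ∃ m, B < x m := by
  intro α hα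
  obtain ⟨L, hLdef⟩ : ∃ L, L = Real.log (1 + α) + |Real.log α| + 1 := ⟨_, rfl⟩
  have hlog1 : 0 ≤ Real.log (1 + α) := Real.log_nonneg (by linarith)
  have hL0 : 0 < L := by
    have := abs_nonneg (Real.log α); linarith
  have hL1 : Real.log (1 + α) ≤ L := by
    have := abs_nonneg (Real.log α); linarith
  have hL2 : -Real.log α ≤ L := by
    have := neg_le_abs (Real.log α); linarith
  -- the solution
  let st : ℕ → ℝ × ℝ × ℝ := fun n => Nat.rec (Real.exp (-(100 * L)), 1, 1)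
    (fun _ s => (s.2.1, s.2.2, (α + s.2.2) / s.1)) n
  have hst0 : st 0 = (Real.exp (-(100 * L)), 1, 1) := rfl
  have hst : ∀ n, st (n + 1) = ((st n).2.1, (st n).2.2, (α + (st n).2.2) / (st n).1) := fun n => rfl
  let x : ℕ → ℝ := fun n => (st n).1
  have hx1 : ∀ n, (st n).2.1 = x (n + 1) := fun n => rfl
  have hx2 : ∀ n, (st n).2.2 = x (n + 2) := fun n => rfl
  have hrec : ∀ n, x (n + 3) = (α + x (n + 2)) / x n := fun n => rfl
  have hpos3 : ∀ n, 0 < x n ∧ 0 < x (n + 1) ∧ 0 < x (n + 2) := by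
    intro n
    induction n with
    | zero => exact ⟨Real.exp_pos _, one_pos, one_pos⟩
    | succ n ih =>
      refine ⟨ih.2.1, ih.2.2, ?_⟩
      rw [show n + 1 + 2 = n + 3 by ring, hrec]
      exact div_pos (by linarith [ih.2.2]) ih.1
  have hpos : ∀ n, 0 < x n := fun n => (hpos3 n).1
  refine ⟨x, ⟨hpos, hrec⟩, ?_⟩
  -- the logarithms
  have hX : ∀ n, |Real.log (x (n + 3)) - (max 0 (Real.log (x (n + 2))) - Real.log (x n))| ≤ L := by
    intro n
    have h1 := log_add α hα (Real.log (x (n + 2))) L hL1 hL2 hL0.le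
    rw [Real.exp_log (hpos (n + 2))] at h1
    rw [hrec, Real.log_div (by have := hpos (n + 2); linarith) (hpos n).ne']
    rw [show Real.log (α + x (n + 2)) - Real.log (x n) - (max 0 (Real.log (x (n + 2))) - Real.log (x n)) =
      Real.log (α + x (n + 2)) - max 0 (Real.log (x (n + 2))) by ring]
    exact h1
  have hX0 : Real.log (x 0) = -(100 * L) := Real.log_exp _
  have hX1 : Real.log (x 1) = 0 := Real.log_one
  have hX2 : Real.log (x 2) = 0 := Real.log_one
  intro B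
  obtain ⟨k, hk⟩ : ∃ k : ℕ, B < (3 / 2 : ℝ) ^ k := pow_unbounded_of_one_lt B (by norm_num)
  obtain ⟨m, h1, h2, h3, h4⟩ := iter L hL0 (fun n => Real.log (x n)) hX (by simp only [hX0]; linarith)
    (by simp only [hX1]; linarith) (by simp only [hX2]; linarith) (by simp only [hX0, hX1, hX2]; linarith) k
  have e3 := abs_le.1 (hX m)
  have e4 := abs_le.1 (hX (m + 1))
  simp only [add_assoc, Nat.reduceAdd] at e3 e4
  have m2 : Real.log (x (m + 2)) ≤ max 0 (Real.log (x (m + 2))) := le_max_right _ _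
  have m3 : Real.log (x (m + 3)) ≤ max 0 (Real.log (x (m + 3))) := le_max_right _ _
  have hp : (1 : ℝ) ≤ (3 / 2 : ℝ) ^ k := one_le_pow₀ (by norm_num)
  have h5 : (3 / 2 : ℝ) ^ k * L ≤ Real.log (x (m + 4)) := by
    nlinarith [e3.1, e4.1]
  have hL1' : 1 ≤ L := by
    have := abs_nonneg (Real.log α); linarith
  have h6 : (3 / 2 : ℝ) ^ k ≤ Real.log (x (m + 4)) := by nlinarith
  refine ⟨m + 4, ?_⟩
  have h7 := Real.log_le_sub_one_of_pos (hpos (m + 4))
  linarith

end Pool.Agent.Results.MP_f66a6a_an.UnboundedSolutions
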